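import Pool.Agent.helper20.SOL.Spec

/-! # Project sol (MP_cad530_co), row K2L -/

set_option autoImplicit false

namespace Pool.Agent.SOL

open Pool.Agent.helper54.SOG Finset

open scoped BigOperators

/-- `x` with the signs of the coordinates in `P` changed -/
def K2L_fl {n : ℕ} (P : Finset (Fin n)) (x : Vec n) : Vec n := fun j => if j ∈ P then -x j else x j

theorem K2L_entries {n : ℕ} {x : Vec n} (hx : x ∈ TD n 0 4) (i : Fin n) :
    x i = 0 ∨ x i = 1 ∨ x i = -1 := by
  obtain ⟨h1, h2, -⟩ := hx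
  have h3 : |x i| ≠ 2 := by
    intro h
    have h4 : i ∈ univ.filter fun j => |x j| = 2 := by simp [h]
    unfold cnt at h2
    rw [Finset.card_eq_zero] at h2
    rw [h2] at h4
    simp at h4
  have h5 := h1 i
  have h6 := abs_nonneg (x i)
  have h7 : |x i| = 0 ∨ |x i| = 1 := by omega
  rcases h7 with h7 | h7
  · left; exact abs_eq_zero.mp h7
  · right; exact (abs_eq (by norm_num)).mp h7

theorem K2L_single {n : ℕ} (i : Fin n) (z : ℤ) (hz : |z| = 2) :
    (Pi.single i z : Fin n → ℤ) ∈ TD n 1 0 := by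
  classical
  have hv : ∀ j, |(Pi.single i z : Fin n → ℤ) j| = if j = i then 2 else 0 := by
    intro j
    by_cases h : j = i
    · subst h; simp [hz]
    · simp [h]
  refine ⟨?_, ?_, ?_⟩
  · intro j
    rw [hv j]
    split_ifs <;> norm_num
  · unfold cnt
    rw [Finset.card_eq_one]
    refine ⟨i, ?_⟩
    ext j
    simp only [Finset.mem_filter, Finset.mem_univ, true_and, Finset.mem_singleton]
    rw [hv j]
    by_cases h : j = i
    · simp [h]
    · simp [h]
  · unfold cnt
    rw [Finset.card_eq_zero]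
    ext j
    simp only [Finset.mem_filter, Finset.mem_univ, true_and, Finset.notMem_empty, iff_false]
    rw [hv j]
    split_ifs <;> norm_num

theorem K2L_of_T10 {n : ℕ} {x : Vec n} (hx : x ∈ TD n 1 0) :
    ∃ i, x = (Pi.single i (2 : ℤ) : Fin n → ℤ) ∨ x = (Pi.single i (-2 : ℤ) : Fin n → ℤ) := by
  classical
  obtain ⟨h1, h2, h3⟩ := hx
  unfold cnt at h2 h3
  rw [Finset.card_eq_one] at h2
  obtain ⟨i, hi⟩ := h2
  rw [Finset.card_eq_zero] at h3
  have hi2 : |x i| = 2 := by
    have : i ∈ univ.filter fun j => |x j| = 2 := by rw [hi]; simp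
    simpa using this
  have hother : ∀ j, j ≠ i → x j = 0 := by
    intro j hj
    have a1 : |x j| ≠ 2 := by
      intro h
      have : j ∈ univ.filter fun j => |x j| = 2 := by simp [h]
      rw [hi] at this
      exact hj (by simpa using this)
    have a2 : |x j| ≠ 1 := by
      intro h
      have : j ∈ univ.filter fun j => |x j| = 1 := by simp [h]
      rw [h3] at this
      simp at this
    have a3 := h1 j
    have a4 := abs_nonneg (x j)
    have a5 : |x j| = 0 := by omega
    exact abs_eq_zero.mp a5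
  refine ⟨i, ?_⟩
  rcases (abs_eq (by norm_num)).mp hi2 with h | h
  · left
    funext j
    by_cases hj : j = i
    · subst hj; simp [h]
    · simp [hj, hother j hj]
  · right
    funext j
    by_cases hj : j = i
    · subst hj; simp [h]
    · simp [hj, hother j hj]

theorem K2L (hCNT : CNT_stmt) : K2L_stmt := by
  classical
  obtain ⟨-, hVD, hTV, hflp, -, hneg, -, -⟩ := hCNT
  intro n m N f hn hnorm hadj hodd hadd
  have hT04 : ∀ x : Vec n, x ∈ TD n 0 4 → x ∈ VD n 2 := fun x hx =>
    hTV n 2 0 4 x (by norm_num) (by omega) hx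
  have hT10 : ∀ x : Vec n, x ∈ TD n 1 0 → x ∈ VD n 2 := fun x hx =>
    hTV n 2 1 0 x (by norm_num) (by omega) hx
  obtain ⟨T, hT⟩ : ∃ T : Fin n → Fin m → ℝ, T = fun i =>
      (1 / 2 : ℝ) • f (Pi.single i (2 : ℤ) : Fin n → ℤ) := ⟨_, rfl⟩
  have hf2 : ∀ i, f (Pi.single i (2 : ℤ) : Fin n → ℤ) = (2 : ℝ) • T i := by
    intro i
    rw [hT]
    simp only
    rw [smul_smul]
    norm_num
  have hfm2 : ∀ i, f (Pi.single i (-2 : ℤ) : Fin n → ℤ) = (-2 : ℝ) • T i := by
    intro i
    have h1 : (Pi.single i (-2 : ℤ) : Fin n → ℤ) = -(Pi.single i (2 : ℤ) : Fin n → ℤ) := by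
      rw [← Pi.single_neg]
    rw [h1, hodd _ (K2L_single i 2 (by norm_num)), hf2 i, neg_smul]
  have hfX : ∀ i (z : ℤ), (z = 1 ∨ z = -1) →
      f (Pi.single i (2 * z) : Fin n → ℤ) = (2 * (z : ℝ)) • T i := by
    intro i z hz
    rcases hz with rfl | rfl
    · rw [mul_one, hf2 i]; norm_num
    · rw [show (2 : ℤ) * -1 = -2 by norm_num, hfm2 i]; norm_num
  -- one flip
  have hsub : ∀ (x : Vec n) (i : Fin n), x - (Pi.single i (2 * x i) : Fin n → ℤ) = flp i x := by
    intro x i
    funext j
    unfold flp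
    by_cases hj : j = i
    · subst hj
      simp
      ring
    · simp [hj]
  have hXm : ∀ x ∈ TD n 0 4, ∀ i, x i ≠ 0 → (Pi.single i (2 * x i) : Fin n → ℤ) ∈ TD n 1 0 := by
    intro x hx i hi
    apply K2L_single
    rcases K2L_entries hx i with h | h | h
    · exact absurd h hi
    · rw [h]; norm_num
    · rw [h]; norm_num
  have hz1 : ∀ x ∈ TD n 0 4, ∀ i, x i ≠ 0 → (x i = 1 ∨ x i = -1) := by
    intro x hx i hi
    rcases K2L_entries hx i with h | h | h
    · exact absurd h hi
    · exact Or.inl h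
    · exact Or.inr h
  have hflip : ∀ x ∈ TD n 0 4, ∀ i, x i ≠ 0 → f x - f (flp i x) = (2 * (x i : ℝ)) • T i := by
    intro x hx i hi
    have hX := hXm x hx i hi
    have h1 : (Pi.single i (2 * x i) : Fin n → ℤ) - x ∈ VD n 2 := by
      have h2 : (Pi.single i (2 * x i) : Fin n → ℤ) - x = -(flp i x) := by
        rw [← hsub x i, neg_sub]
      rw [h2]
      exact hT04 _ (hneg n 0 4 _ (hflp n 0 4 x i hx))
    have h3 := hadd _ hX x (hT04 x hx) h1
    rw [hsub x i] at h3
    rw [h3, hfX i (x i) (hz1 x hx i hi)]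
    abel
  have hdot : ∀ x ∈ TD n 0 4, ∀ i, x i ≠ 0 → f x ⬝ᵥ T i = (x i : ℝ) * N / 4 := by
    intro x hx i hi
    have hX := hXm x hx i hi
    have h1 : x - (Pi.single i (2 * x i) : Fin n → ℤ) ∈ VD n 2 := by
      rw [hsub x i]
      exact hT04 _ (hflp n 0 4 x i hx)
    have h2 := hadj x (hT04 x hx) _ (hT10 _ hX) h1
    rw [hfX i (x i) (hz1 x hx i hi), dotProduct_smul, smul_eq_mul] at h2
    rcases hz1 x hx i hi with h | h
    · rw [h] at h2 ⊢
      push_cast at h2 ⊢
      linarith
    · rw [h] at h2 ⊢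
      push_cast at h2 ⊢
      linarith
  -- telescoping
  have htel : ∀ x ∈ TD n 0 4, ∀ P : Finset (Fin n), K2L_fl P x ∈ TD n 0 4 ∧
      f x - f (K2L_fl P x) = ∑ i ∈ P, (2 * (x i : ℝ)) • T i := by
    intro x hx P
    induction P using Finset.induction_on with
    | empty =>
      have h1 : K2L_fl ∅ x = x := by
        funext j
        simp [K2L_fl]
      rw [h1]
      refine ⟨hx, ?_⟩
      simp
    | insert i P hi ih =>
      obtain ⟨ih1, ih2⟩ := ih
      have h1 : K2L_fl (insert i P) x = flp i (K2L_fl P x) := by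
        funext j
        unfold K2L_fl flp
        by_cases hj : j = i
        · subst hj
          simp [hi]
        · simp [hj]
      have h2 : K2L_fl P x i = x i := by
        unfold K2L_fl
        simp [hi]
      rw [h1]
      refine ⟨hflp n 0 4 _ i ih1, ?_⟩
      rw [Finset.sum_insert hi, ← ih2]
      by_cases h0 : x i = 0
      · have h3 : flp i (K2L_fl P x) = K2L_fl P x := by
          funext j
          unfold flp
          by_cases hj : j = i
          · subst hj
            simp [h2, h0]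
          · simp [hj]
        rw [h3, h0]
        simp
      · have h3 := hflip _ ih1 i (by rw [h2]; exact h0)
        rw [h2] at h3
        rw [← h3]
        abel
  set S : Vec n → Fin m → ℝ := fun x => ∑ i, (x i : ℝ) • T i with hS
  have hSd0 : ∀ x, S x = ∑ i, (x i : ℝ) • T i := fun x => rfl
  have hS2 : ∀ x ∈ TD n 0 4, f x - f (-x) = (2 : ℝ) • S x := by
    intro x hx
    have h1 := (htel x hx univ).2
    have h2 : K2L_fl univ x = -x := by
      funext j
      simp [K2L_fl]
    rw [h2] at h1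
    rw [h1, hSd0, Finset.smul_sum]
    apply Finset.sum_congr rfl
    intro i _
    exact mul_smul _ _ _
  have hnegm : ∀ x ∈ TD n 0 4, -x ∈ TD n 0 4 := fun x hx => hneg n 0 4 x hx
  have hdotn : ∀ x ∈ TD n 0 4, ∀ i, x i ≠ 0 → f (-x) ⬝ᵥ T i = -((x i : ℝ) * N / 4) := by
    intro x hx i hi
    have h1 := hdot (-x) (hnegm x hx) i (by simpa using hi)
    rw [h1]
    rw [Pi.neg_apply]
    push_cast
    ring
  have hSd : ∀ x ∈ TD n 0 4, ∀ i, x i ≠ 0 → S x ⬝ᵥ T i = (x i : ℝ) * N / 4 := by
    intro x hx i hi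
    have h1 : (f x - f (-x)) ⬝ᵥ T i = ((2 : ℝ) • S x) ⬝ᵥ T i := by rw [hS2 x hx]
    rw [sub_dotProduct, hdot x hx i hi, hdotn x hx i hi, smul_dotProduct, smul_eq_mul] at h1
    linarith
  -- orthogonality in the support
  have horth : ∀ x ∈ TD n 0 4, ∀ i j, i ≠ j → x i ≠ 0 → x j ≠ 0 → T i ⬝ᵥ T j = 0 := by
    intro x hx i j hij hi hj
    have h1 : S (flp i x) = S x - (2 * (x i : ℝ)) • T i := by
      rw [hSd0, hSd0]
      have h2 : ∀ l, ((flp i x) l : ℝ) • T l =
          (x l : ℝ) • T l - (if l = i then (2 * (x i : ℝ)) • T i else 0) := by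
        intro l
        unfold flp
        by_cases hl : l = i
        · subst hl
          rw [if_pos rfl, if_pos rfl, ← sub_smul]
          push_cast
          congr 1
          ring
        · rw [if_neg hl, if_neg hl, sub_zero]
      rw [Finset.sum_congr rfl (fun l _ => h2 l), Finset.sum_sub_distrib, Finset.sum_ite_eq',
        if_pos (Finset.mem_univ i)]
    have hfj : (flp i x) j = x j := by
      unfold flp
      rw [if_neg (Ne.symm hij)]
    have h3 := hSd (flp i x) (hflp n 0 4 x i hx) j (by rw [hfj]; exact hj)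
    rw [h1, sub_dotProduct, hSd x hx j hj, hfj, smul_dotProduct, smul_eq_mul] at h3
    have h4 : (2 * (x i : ℝ)) * (T i ⬝ᵥ T j) = 0 := by linarith
    have h5 : (2 * (x i : ℝ)) ≠ 0 := by
      have : (x i : ℝ) ≠ 0 := by exact_mod_cast hi
      exact mul_ne_zero (by norm_num) this
    exact (mul_eq_zero.mp h4).resolve_left h5
  have hE : ∀ x ∈ TD n 0 4, f x = S x := by
    intro x hx
    obtain ⟨E, hEdef⟩ : ∃ E : Fin m → ℝ, E = f x + f (-x) := ⟨_, rfl⟩
    have hfx : (2 : ℝ) • f x = (2 : ℝ) • S x + E := by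
      rw [← hS2 x hx, hEdef, two_smul]
      abel
    have hSS : S x ⬝ᵥ S x = N := by
      have h1 : S x ⬝ᵥ S x = ∑ i, (x i : ℝ) * (S x ⬝ᵥ T i) := by
        rw [show S x ⬝ᵥ S x = S x ⬝ᵥ (∑ i, (x i : ℝ) • T i) from rfl, dotProduct_sum]
        apply Finset.sum_congr rfl
        intro i _
        rw [dotProduct_smul, smul_eq_mul]
      have h2 : ∀ i, (x i : ℝ) * (S x ⬝ᵥ T i) = ((x i * x i : ℤ) : ℝ) * (N / 4) := by
        intro i
        by_cases h0 : x i = 0
        · rw [h0]; simp
        · rw [hSd x hx i h0]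
          push_cast
          ring
      rw [h1, Finset.sum_congr rfl (fun i _ => h2 i), ← Finset.sum_mul]
      have h3 : dp x x = 2 * (2 : ℕ) := (hT04 x hx).2.1
      have h4 : (∑ i, ((x i * x i : ℤ) : ℝ)) = 4 := by
        have h5 : ((∑ i, x i * x i : ℤ) : ℝ) = 4 := by
          have : (∑ i, x i * x i : ℤ) = 4 := by
            have h6 : dp x x = ∑ i, x i * x i := rfl
            rw [← h6, h3]
            norm_num
          rw [this]
          norm_num
        rw [← h5]
        push_cast
        rfl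
      rw [h4]
      ring
    have hSE : S x ⬝ᵥ E = 0 := by
      rw [dotProduct_comm]
      have h1 : E ⬝ᵥ S x = ∑ i, (x i : ℝ) * (E ⬝ᵥ T i) := by
        rw [show E ⬝ᵥ S x = E ⬝ᵥ (∑ i, (x i : ℝ) • T i) from rfl, dotProduct_sum]
        apply Finset.sum_congr rfl
        intro i _
        rw [dotProduct_smul, smul_eq_mul]
      rw [h1]
      apply Finset.sum_eq_zero
      intro i _
      by_cases h0 : x i = 0
      · rw [h0]; simp
      · rw [hEdef, add_dotProduct, hdot x hx i h0, hdotn x hx i h0]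
        ring
    have hEE : E ⬝ᵥ E = 0 := by
      have h1 : ((2 : ℝ) • f x) ⬝ᵥ ((2 : ℝ) • f x) =
          ((2 : ℝ) • S x + E) ⬝ᵥ ((2 : ℝ) • S x + E) := by rw [hfx]
      rw [smul_dotProduct, dotProduct_smul, hnorm x (hT04 x hx)] at h1
      rw [add_dotProduct, dotProduct_add, dotProduct_add, smul_dotProduct, smul_dotProduct,
        dotProduct_smul, dotProduct_smul, hSS, dotProduct_comm E (S x), hSE] at h1
      simp only [smul_eq_mul] at h1
      linarith
    have hE0 : E = 0 := dotProduct_self_eq_zero.mp hEE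
    rw [hE0, add_zero] at hfx
    have h2 : ((2 : ℝ)⁻¹) • ((2 : ℝ) • f x) = ((2 : ℝ)⁻¹) • ((2 : ℝ) • S x) := by rw [hfx]
    rwa [smul_smul, smul_smul, inv_mul_cancel₀ (by norm_num : (2 : ℝ) ≠ 0), one_smul, one_smul] at h2
  refine ⟨T, ?_, ?_, ?_⟩
  · intro x hx
    rw [hVD n 2 x] at hx
    obtain ⟨h1, h2, h3⟩ := hx
    have h4 : (cnt x 2 = 1 ∧ cnt x 1 = 0) ∨ (cnt x 2 = 0 ∧ cnt x 1 = 4) := by omega
    rcases h4 with ⟨h5, h6⟩ | ⟨h5, h6⟩
    · obtain ⟨i, hi | hi⟩ := K2L_of_T10 (x := x) ⟨h1, h5, h6⟩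
      · rw [hi, hf2 i]
        rw [Finset.sum_eq_single i]
        · simp
        · intro b _ hb
          simp [hb]
        · intro h; exact absurd (Finset.mem_univ i) h
      · rw [hi, hfm2 i]
        rw [Finset.sum_eq_single i]
        · simp
        · intro b _ hb
          simp [hb]
        · intro h; exact absurd (Finset.mem_univ i) h
    · exact hE x ⟨h1, h5, h6⟩
  · intro i
    have h1 := hnorm _ (hT10 _ (K2L_single i 2 (by norm_num)))
    rw [hf2 i, smul_dotProduct, dotProduct_smul] at h1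
    simp only [smul_eq_mul] at h1
    linarith
  · intro i j hij
    -- an element of `TD n 0 4` with `i`, `j` in the support
    obtain ⟨F, hF1, hF2, hF3⟩ := Finset.exists_subsuperset_card_eq
      (s := ({i, j} : Finset (Fin n))) (t := univ) (n := 4) (Finset.subset_univ _)
      (by rw [Finset.card_pair hij]; norm_num) (by rw [Finset.card_univ, Fintype.card_fin]; exact hn)
    have hx : (fun l => if l ∈ F then (1 : ℤ) else 0 : Vec n) ∈ TD n 0 4 := by
      refine ⟨?_, ?_, ?_⟩
      · intro l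
        by_cases h : l ∈ F
        · simp [h]
        · simp [h]
      · unfold cnt
        rw [Finset.card_eq_zero]
        ext l
        by_cases h : l ∈ F
        · simp [h]
        · simp [h]
      · unfold cnt
        rw [← hF3]
        congr 1
        ext l
        by_cases h : l ∈ F
        · simp [h]
        · simp [h]
    have hiF : i ∈ F := hF1 (by simp)
    have hjF : j ∈ F := hF1 (by simp)
    exact horth _ hx i j hij (by simp [hiF]) (by simp [hjF])

end Pool.Agent.SOL
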